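import Mathlib
import Pool.Agent.Helper11_PGL.StmtT

open PGH

universe u

namespace PGL.H12

theorem height_maximal_polynomial {R : Type u} [CommRing R] [IsNoetherianRing R]
    [IsJacobsonRing R] (M : Ideal (Polynomial R)) [M.IsMaximal] :
    M.height = (M.comap Polynomial.C).height + 1 ∧ (M.comap Polynomial.C).IsMaximal := by
  refine ⟨?_, Polynomial.isMaximal_comap_C_of_isJacobsonRing M⟩
  exact Polynomial.height_eq_height_add_one (M.under R) M

/-- maximal ideals of a polynomial ring over a field -/
theorem height_of_isMaximal (k : Type u) [Field k] : ∀ (v : ℕ) (P : Ideal (MvPolynomial (Fin v) k)),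
    P.IsMaximal → P.height = v := by
  intro v
  induction v with
  | zero =>
    intro P hP
    have e := (MvPolynomial.isEmptyRingEquiv k (Fin 0)).symm
    have hbot : P = ⊥ := by
      have hf : IsField (MvPolynomial (Fin 0) k) := e.symm.toMulEquiv.isField (Field.toIsField k)
      let _ := hf.toField
      rcases Ideal.eq_bot_or_top P with h | h
      · exact h
      · exact absurd h hP.ne_top
    rw [hbot, Ideal.height_bot]
    rfl
  | succ v ih =>
    intro P hP
    let e : MvPolynomial (Fin (v + 1)) k ≃+* Polynomial (MvPolynomial (Fin v) k) :=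
      (MvPolynomial.finSuccEquiv k v).toRingEquiv
    have hM : (P.map e).IsMaximal := Ideal.map_isMaximal_of_equiv e
    rw [← e.height_map P]
    obtain ⟨h1, h2⟩ := height_maximal_polynomial (P.map e)
    rw [h1, ih _ h2]
    simp

theorem gd : GdStmt.{u} := by
  intro k _ _ v A _ _ _ y hft hy hint
  let : Algebra (MvPolynomial (Fin v) k) A := (MvPolynomial.aeval y).toRingHom.toAlgebra
  have halg : ∀ F : MvPolynomial (Fin v) k, algebraMap (MvPolynomial (Fin v) k) A F =
      MvPolynomial.aeval y F := fun _ => rfl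
  have : FaithfulSMul (MvPolynomial (Fin v) k) A :=
    (faithfulSMul_iff_algebraMap_injective _ _).mpr hy
  have : Algebra.IsIntegral (MvPolynomial (Fin v) k) A := by
    constructor
    intro a
    refine IsIntegral.map_of_comp_eq hy.repr.toRingHom (RingHom.id A) ?_ (hint a)
    ext s
    exact hy.aeval_repr s
  have : IsNoetherianRing A := Algebra.FiniteType.isNoetherianRing k A
  constructor
  · intro m g 𝔭 h𝔭 hm hmax
    have := hmax
    have h1 : 𝔭.height ≤ m := by
      refine (Ideal.height_le_card_of_mem_minimalPrimes_span (Set.finite_range g) h𝔭).trans ?_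
      have : (Set.range g).ncard ≤ m := by
        rw [← Set.image_univ]
        refine (Set.ncard_image_le (Set.toFinite _)).trans ?_
        rw [Set.ncard_univ]
        simp
      exact_mod_cast this
    have hmax2 : (𝔭.under (MvPolynomial (Fin v) k)).IsMaximal :=
      Ideal.isMaximal_comap_of_isIntegral_of_isMaximal 𝔭
    have h2 := Ideal.height_eq_height_add_of_liesOver_of_hasGoingDown
      (𝔭.under (MvPolynomial (Fin v) k)) 𝔭
    rw [height_of_isMaximal k v _ hmax2] at h2
    have h3 : (v : ℕ∞) ≤ 𝔭.height := by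
      rw [h2]
      exact le_self_add
    have h4 : (v : ℕ∞) ≤ m := h3.trans h1
    have h5 : v ≤ m := by exact_mod_cast h4
    omega
  · intro c 𝔭 hc h𝔭
    have hprime : 𝔭.IsPrime := h𝔭.1.1
    set q := 𝔭.under (MvPolynomial (Fin v) k) with hq
    have hcq : c ∈ q := by
      rw [hq, Ideal.mem_under, halg]
      exact h𝔭.1.2 (Ideal.subset_span (Set.mem_singleton _))
    obtain ⟨u, hu⟩ := UniqueFactorizationMonoid.factors_prod hc
    have hprod : (UniqueFactorizationMonoid.factors c).prod ∈ q := by
      have h1 : (UniqueFactorizationMonoid.factors c).prod =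
          c * ((u⁻¹ : (MvPolynomial (Fin v) k)ˣ) : MvPolynomial (Fin v) k) := by
        rw [Units.eq_mul_inv_iff_mul_eq]
        exact hu
      rw [h1]
      exact Ideal.mul_mem_right _ _ hcq
    have hqp : q.IsPrime := inferInstance
    obtain ⟨c₁, hc₁, hc₁q⟩ := (hqp.multiset_prod_mem_iff_exists_mem _).1 hprod
    have hirr := UniqueFactorizationMonoid.irreducible_of_factor c₁ hc₁
    have hdvd := UniqueFactorizationMonoid.dvd_of_mem_factors hc₁
    refine ⟨c₁, hirr, hdvd, ?_⟩
    have : (Ideal.span {c₁}).IsPrime :=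
      (Ideal.span_singleton_prime hirr.ne_zero).mpr
        (UniqueFactorizationMonoid.irreducible_iff_prime.mp hirr)
    obtain ⟨P, hP𝔭, hP, hPover⟩ := Ideal.exists_ideal_le_liesOver_of_le (p := Ideal.span {c₁})
      (q := q) 𝔭 ((Ideal.span_singleton_le_iff_mem _).mpr hc₁q)
    have h1 : MvPolynomial.aeval y c ∈ P := by
      rw [← halg, ← Ideal.mem_under, ← hPover.over]
      exact Ideal.mem_span_singleton.mpr hdvd
    have h2 : 𝔭 ≤ P := h𝔭.2 ⟨hP, (Ideal.span_singleton_le_iff_mem _).mpr h1⟩ hP𝔭
    intro F hF
    have h3 : MvPolynomial.aeval y F ∈ P := h2 hF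
    rw [← halg, ← Ideal.mem_under, ← hPover.over] at h3
    exact Ideal.mem_span_singleton.mp h3

end PGL.H12
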