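import Mathlib
import Pool.Agent.Helper11_PGL.StmtT

open PGH Polynomial

universe u

namespace PGL.H12

/-- transfer of integrality between subalgebras along a ring homomorphism -/
theorem isIntegral_transfer {k P Q : Type*} [CommRing k] [CommRing P] [CommRing Q] [Algebra k P]
    [Algebra k Q] (S : Subalgebra k P) (T : Subalgebra k Q) (Φ : P →+* Q)
    (h : ∀ s ∈ S, Φ s ∈ T) {x : P} (hx : IsIntegral S x) : IsIntegral T (Φ x) := by
  refine IsIntegral.map_of_comp_eq ((Φ.comp S.val.toRingHom).codRestrict T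
    (fun s => h s.1 s.2)) Φ ?_ hx
  ext s
  rfl

/-- images of adjoin -/
theorem adjoin_map_mem {k P Q : Type*} [CommRing k] [CommRing P] [CommRing Q] [Algebra k P]
    [Algebra k Q] (s : Set P) (T : Subalgebra k Q) (Φ : P →ₐ[k] Q)
    (h : ∀ x ∈ s, Φ x ∈ T) : ∀ x ∈ Algebra.adjoin k s, Φ x ∈ T := by
  intro x hx
  have : Algebra.adjoin k s ≤ T.comap Φ := Algebra.adjoin_le (fun y hy => h y hy)
  exact this hx

theorem homInt_map (k A B : Type u) (ι : Type) [Field k] [CommRing A] [Algebra k A] [CommRing B]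
    [Algebra k B] (φ : A →ₐ[k] B) (y : ι → A) (a : A) (h : HomInt k y a) :
    HomInt k (fun l => φ (y l)) (φ a) := by
  have := isIntegral_transfer _ (Algebra.adjoin k
    (insert (X : B[X]) (Set.range fun l => C (φ (y l)) * X))) (Polynomial.mapAlgHom φ).toRingHom
    (adjoin_map_mem _ _ (Polynomial.mapAlgHom φ) (by
      rintro x (rfl | ⟨l, rfl⟩)
      · apply Algebra.subset_adjoin
        left
        simp
      · apply Algebra.subset_adjoin
        right
        exact ⟨l, by simp⟩)) h
  have h2 : (Polynomial.mapAlgHom φ).toRingHom (C a * X) = C (φ a) * X := by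
    show Polynomial.mapAlgHom φ (C a * X) = _
    simp
  rw [h2] at this
  exact this

theorem homInt_trans (k A : Type u) (ι κ : Type) [Field k] [CommRing A] [Algebra k A] (y : ι → A)
    (z : κ → A) (a : A) (h : HomInt k y a) (hy : ∀ l, HomInt k z (y l)) : HomInt k z a := by
  unfold HomInt at *
  set Sz := Algebra.adjoin k (insert (X : A[X]) (Set.range fun l => C (z l) * X)) with hSz
  let W := integralClosure Sz A[X]
  have h1 : IsIntegral (W.restrictScalars k) ((RingHom.id A[X]) (C a * X)) := by
    refine isIntegral_transfer _ _ (RingHom.id _) ?_ h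
    refine adjoin_map_mem _ _ (AlgHom.id k A[X]) ?_
    rintro x (rfl | ⟨l, rfl⟩)
    · have : IsIntegral Sz (algebraMap Sz A[X] ⟨X, Algebra.subset_adjoin (Set.mem_insert _ _)⟩) :=
        isIntegral_algebraMap
      exact this
    · exact hy l
  have h2 : IsIntegral W (C a * X) := h1
  exact isIntegral_trans (A := W) _ h2

theorem homInt_self (k A : Type u) (ι : Type) [Field k] [CommRing A] [Algebra k A] (y : ι → A)
    (l : ι) : HomInt k y (y l) := by
  unfold HomInt
  exact isIntegral_algebraMap (x := (⟨C (y l) * X, Algebra.subset_adjoin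
    (Set.mem_insert_of_mem _ ⟨l, rfl⟩)⟩ : Algebra.adjoin k
      (insert (X : A[X]) (Set.range fun l => C (y l) * X))))

theorem homInt_isIntegral (k A : Type u) (ι : Type) [Field k] [CommRing A] [Algebra k A]
    (y : ι → A) (a : A) (h : HomInt k y a) : IsIntegral (Algebra.adjoin k (Set.range y)) a := by
  have := isIntegral_transfer _ (Algebra.adjoin k (Set.range y))
    (Polynomial.aeval (R := A) (1 : A)).toRingHom
    (adjoin_map_mem _ _ ((Polynomial.aeval (R := A) (1 : A)).restrictScalars k) (by
      rintro x (rfl | ⟨l, rfl⟩)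
      · simp only [AlgHom.coe_restrictScalars', aeval_X]
        exact one_mem _
      · apply Algebra.subset_adjoin
        exact ⟨l, by simp⟩)) h
  simpa using this

theorem homInt_monic (k A : Type u) [Field k] [CommRing A] [Algebra k A] (v e : ℕ)
    (y : Fin (v + 1) → A)
    (c : MvPolynomial (Fin (v + 1)) k) (hdeg : c.totalDegree ≤ e)
    (hu : c.coeff (Finsupp.single (Fin.last v) e) ≠ 0) (h0 : MvPolynomial.aeval y c = 0)
    (_ : 1 ≤ e) :
    HomInt k (fun l : Fin v => y l.castSucc) (y (Fin.last v)) := by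
  classical
  unfold HomInt
  set S := Algebra.adjoin k (insert (X : A[X]) (Set.range fun l : Fin v =>
    C (y l.castSucc) * X)) with hS
  let Xs : S := ⟨X, Algebra.subset_adjoin (Set.mem_insert _ _)⟩
  let Ys : Fin v → S := fun l => ⟨C (y l.castSucc) * X, Algebra.subset_adjoin
    (Set.mem_insert_of_mem _ ⟨l, rfl⟩)⟩
  set b0 := Finsupp.single (Fin.last v) e with hb0
  set U := c.coeff b0 with hU
  let sz : (Fin (v + 1) →₀ ℕ) → ℕ := fun b => ∑ l, b l
  have hsz : ∀ b ∈ c.support, sz b ≤ e := by
    intro b hb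
    have := MvPolynomial.le_totalDegree hb
    refine le_trans ?_ (this.trans hdeg)
    rw [Finsupp.sum_fintype _ _ (fun _ => rfl)]
  let q : S[X] := ∑ b ∈ c.support.erase b0, C (algebraMap k S (U⁻¹ * c.coeff b) *
    Xs ^ (e - sz b) * ∏ l, Ys l ^ b l.castSucc) * X ^ b (Fin.last v)
  have hb0mem : b0 ∈ c.support := MvPolynomial.mem_support_iff.mpr hu
  have hq : q.degree < e := by
    refine lt_of_le_of_lt (Polynomial.degree_sum_le _ _) ?_
    rw [Finset.sup_lt_iff (by exact WithBot.bot_lt_coe e)]
    intro b hb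
    refine lt_of_le_of_lt (Polynomial.degree_C_mul_X_pow_le _ _) ?_
    obtain ⟨hne, hb⟩ := Finset.mem_erase.mp hb
    have h1 := hsz b hb
    have h2 : b (Fin.last v) < e := by
      have h3 : sz b = ∑ l : Fin v, b l.castSucc + b (Fin.last v) := Fin.sum_univ_castSucc _
      by_contra hcon
      have h4 : b (Fin.last v) = e := by omega
      have h5 : ∑ l : Fin v, b l.castSucc = 0 := by omega
      apply hne
      ext l
      refine Fin.lastCases ?_ (fun l => ?_) l
      · rw [h4, hb0]; simp
      · rw [Finset.sum_eq_zero_iff] at h5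
        rw [h5 l (Finset.mem_univ l), hb0]
        rw [Finsupp.single_apply, if_neg]
        exact (Fin.castSucc_lt_last l).ne'
    exact_mod_cast h2
  refine ⟨X ^ e + q, monic_X_pow_add hq, ?_⟩
  -- evaluation
  have hterm : ∀ b ∈ c.support, algebraMap k A[X] (c.coeff b) * X ^ (e - sz b) *
      (∏ l : Fin v, (C (y l.castSucc) * X) ^ b l.castSucc) * (C (y (Fin.last v)) * X) ^
        b (Fin.last v) =
      C (algebraMap k A (c.coeff b) * ∏ l, y l ^ b l) * X ^ e := by
    intro b hb
    have h1 := hsz b hb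
    have h3 : sz b = ∑ l : Fin v, b l.castSucc + b (Fin.last v) := Fin.sum_univ_castSucc _
    have h4 : (X : A[X]) ^ e = X ^ (e - sz b) * ((∏ l : Fin v, X ^ b l.castSucc) *
        X ^ b (Fin.last v)) := by
      rw [Finset.prod_pow_eq_pow_sum, ← pow_add, ← h3, ← pow_add, Nat.sub_add_cancel h1]
    rw [h4, Fin.prod_univ_castSucc]
    simp only [mul_pow, Finset.prod_mul_distrib, map_mul, map_pow, map_prod]
    have h5 : algebraMap k A[X] (c.coeff b) = C (algebraMap k A (c.coeff b)) := rfl
    rw [h5]
    ring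
  have hsum : ∑ b ∈ c.support, algebraMap k A[X] (c.coeff b) * X ^ (e - sz b) *
      (∏ l : Fin v, (C (y l.castSucc) * X) ^ b l.castSucc) * (C (y (Fin.last v)) * X) ^
        b (Fin.last v) = 0 := by
    rw [Finset.sum_congr rfl hterm, ← Finset.sum_mul, ← map_sum]
    have : ∑ b ∈ c.support, algebraMap k A (c.coeff b) * ∏ l, y l ^ b l = 0 := by
      rw [← h0, MvPolynomial.aeval_def, MvPolynomial.eval₂_eq']
    rw [this]
    simp
  rw [← Finset.add_sum_erase _ _ hb0mem] at hsum
  have hb0last : b0 (Fin.last v) = e := by rw [hb0]; simp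
  have hb0cast : ∀ l : Fin v, b0 l.castSucc = 0 := by
    intro l
    rw [hb0, Finsupp.single_apply, if_neg (Fin.castSucc_lt_last l).ne']
  have hszb0 : sz b0 = e := by
    show ∑ l, b0 l = e
    rw [Fin.sum_univ_castSucc, hb0last]
    simp [hb0cast]
  rw [hszb0, hb0last] at hsum
  simp only [hb0cast, pow_zero, Finset.prod_const_one, Nat.sub_self, mul_one] at hsum
  have hUne : U ≠ 0 := hu
  rw [eval₂_add, eval₂_X_pow]
  have hqe : eval₂ (algebraMap S A[X]) (C (y (Fin.last v)) * X) q =
      ∑ b ∈ c.support.erase b0, algebraMap k A[X] (U⁻¹ * c.coeff b) * X ^ (e - sz b) *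
      (∏ l : Fin v, (C (y l.castSucc) * X) ^ b l.castSucc) * (C (y (Fin.last v)) * X) ^
        b (Fin.last v) := by
    show eval₂ (algebraMap S A[X]) _ (∑ b ∈ c.support.erase b0, _) = _
    rw [eval₂_finsetSum]
    apply Finset.sum_congr rfl
    intro b _
    rw [eval₂_mul, eval₂_C, eval₂_X_pow]
    rw [map_mul, map_mul, map_pow, map_prod]
    simp only [map_pow]
    rfl
  rw [hqe]
  have h7 : ∑ b ∈ c.support.erase b0, algebraMap k A[X] (U⁻¹ * c.coeff b) * X ^ (e - sz b) *
      (∏ l : Fin v, (C (y l.castSucc) * X) ^ b l.castSucc) * (C (y (Fin.last v)) * X) ^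
        b (Fin.last v) = algebraMap k A[X] U⁻¹ * ∑ b ∈ c.support.erase b0,
        algebraMap k A[X] (c.coeff b) * X ^ (e - sz b) *
      (∏ l : Fin v, (C (y l.castSucc) * X) ^ b l.castSucc) * (C (y (Fin.last v)) * X) ^
        b (Fin.last v) := by
    rw [Finset.mul_sum]
    apply Finset.sum_congr rfl
    intro b _
    rw [map_mul]
    ring
  rw [h7]
  have h8 : (C (y (Fin.last v)) * X : A[X]) ^ e = algebraMap k A[X] U⁻¹ *
      (algebraMap k A[X] U * (C (y (Fin.last v)) * X) ^ e) := by
    rw [← mul_assoc, ← map_mul, inv_mul_cancel₀ hUne, map_one, one_mul]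
  rw [h8, ← mul_add, hsum, mul_zero]

theorem homint : HomIntStmt.{u} where
  map := homInt_map
  trans := homInt_trans
  self := homInt_self
  const := by
    intro k A ι _ _ _ y c
    unfold HomInt
    have : (C (algebraMap k A c) * X : A[X]) = algebraMap (Algebra.adjoin k
      (insert (X : A[X]) (Set.range fun l => C (y l) * X))) A[X]
      (algebraMap k _ c * ⟨X, Algebra.subset_adjoin (Set.mem_insert _ _)⟩) := rfl
    rw [this]
    exact isIntegral_algebraMap
  add := by
    intro k A ι _ _ _ y a b ha hb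
    unfold HomInt at *
    rw [map_add, add_mul]
    exact ha.add hb
  smul := by
    intro k A ι _ _ _ y c a ha
    unfold HomInt at *
    have : (C (algebraMap k A c * a) * X : A[X]) = algebraMap (Algebra.adjoin k
      (insert (X : A[X]) (Set.range fun l => C (y l) * X))) A[X]
      (algebraMap k _ c) * (C a * X) := by
      rw [map_mul, mul_assoc]
      rfl
    rw [this]
    exact isIntegral_algebraMap.mul ha
  isIntegral := homInt_isIntegral
  monic := homInt_monic

end PGL.H12
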