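import Mathlib
import Pool.Agent.Helper11_PGL.StmtT

open PGH Polynomial

universe u

namespace PGL.H12

/-- exponents of degree at most `t` in `m` variables -/
noncomputable def expSet (m t : ℕ) : Finset (Fin m → ℕ) :=
  (Finset.finsuppAntidiag (Finset.univ : Finset (Fin (m + 1))) t).image
    (fun c l => c l.succ)

theorem card_expSet (m t : ℕ) : (expSet m t).card ≤ (t + m).choose m := by
  refine Finset.card_image_le.trans ?_
  rw [Finset.card_finsuppAntidiag_nat_eq_choose, Finset.card_univ, Fintype.card_fin]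
  have h1 : m + 1 + t - 1 = t + m := by omega
  rw [h1, Nat.choose_symm_add]

theorem mem_expSet {m t : ℕ} {b : Fin m → ℕ} (hb : ∑ l, b l ≤ t) : b ∈ expSet m t := by
  unfold expSet
  rw [Finset.mem_image]
  refine ⟨Finsupp.equivFunOnFinite.symm (Fin.cons (t - ∑ l, b l) b), ?_, ?_⟩
  · rw [Finset.mem_finsuppAntidiag]
    refine ⟨?_, Finset.subset_univ _⟩
    rw [Fin.sum_univ_succ]
    simp
    omega
  · ext l
    simp

theorem exists_le_sum_eq {m : ℕ} (N : ℕ) : ∀ (d : ℕ) (f : Fin m → ℕ), ∑ l, f l = N + d →
    ∃ g : Fin m → ℕ, (∀ l, g l ≤ f l) ∧ ∑ l, g l = N := by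
  intro d
  induction d with
  | zero => intro f hf; exact ⟨f, fun _ => le_rfl, hf⟩
  | succ d ih =>
    intro f hf
    have : ∃ i, f i ≠ 0 := by
      by_contra hcon
      push Not at hcon
      rw [Finset.sum_eq_zero (fun i _ => hcon i)] at hf
      omega
    obtain ⟨i, hi⟩ := this
    obtain ⟨g, hg, hg2⟩ := ih (Function.update f i (f i - 1)) (by
      rw [Finset.sum_update_of_mem (Finset.mem_univ i)]
      have h2 := Finset.add_sum_erase Finset.univ f (Finset.mem_univ i)
      rw [Finset.sdiff_singleton_eq_erase]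
      omega)
    refine ⟨g, fun l => (hg l).trans ?_, hg2⟩
    by_cases h : l = i
    · subst h; simp
    · rw [Function.update_of_ne h]

/-- all monomials are combinations of the monomials of small degree -/
theorem span_monomials {R W : Type*} [CommRing R] [CommRing W] [Algebra R W] (m t : ℕ)
    (z : Fin (m + 1) → W) (ζ : R) (hz : z 0 = algebraMap R W ζ)
    (hrel : ∀ a : Fin (m + 1) → ℕ, a 0 = 0 → ∑ j, a j = t + 1 →
      ∏ j, z j ^ a j ∈ Submodule.span R {w : W | ∃ b : Fin (m + 1) → ℕ,
        ∑ l : Fin m, b l.succ ≤ t ∧ w = ∏ j, z j ^ b j}) :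
    ∀ (n : ℕ) (a : Fin (m + 1) → ℕ), ∑ l : Fin m, a l.succ = n →
      ∏ j, z j ^ a j ∈ Submodule.span R
        ((fun b : Fin m → ℕ => ∏ l, z l.succ ^ b l) '' (expSet m t : Set (Fin m → ℕ))) := by
  set N := Submodule.span R
        ((fun b : Fin m → ℕ => ∏ l, z l.succ ^ b l) '' (expSet m t : Set (Fin m → ℕ))) with hN
  intro n
  induction n using Nat.strong_induction_on with
  | _ n ih =>
    intro a ha
    by_cases hn : n ≤ t
    · rw [Fin.prod_univ_succ, hz, ← map_pow, ← Algebra.smul_def]
      apply Submodule.smul_mem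
      apply Submodule.subset_span
      exact ⟨fun l => a l.succ, mem_expSet (by omega), rfl⟩
    · push Not at hn
      obtain ⟨g, hg, hgs⟩ := exists_le_sum_eq (t + 1) (n - (t + 1)) (fun l => a l.succ) (by
        omega)
      have hsplit : ∀ (b : Fin (m + 1) → ℕ), (∏ j, z j ^ ((a - Fin.cons 0 g : Fin (m + 1) → ℕ) j)) *
          ∏ j, z j ^ b j = ∏ j, z j ^ ((a - Fin.cons 0 g : Fin (m + 1) → ℕ) + b) j := by
        intro b
        rw [← Finset.prod_mul_distrib]
        apply Finset.prod_congr rfl
        intro j _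
        rw [Pi.add_apply, pow_add]
      have hle : ∀ j, (Fin.cons 0 g : Fin (m + 1) → ℕ) j ≤ a j := by
        intro j
        refine Fin.cases ?_ (fun l => ?_) j
        · simp
        · simpa using hg l
      have h1 : ∏ j, z j ^ a j = (∏ j, z j ^ ((a - Fin.cons 0 g : Fin (m + 1) → ℕ) j)) *
          ∏ j, z j ^ ((Fin.cons 0 g : Fin (m + 1) → ℕ) j) := by
        rw [hsplit]
        apply Finset.prod_congr rfl
        intro j _
        congr 1
        rw [Pi.add_apply, Pi.sub_apply, Nat.sub_add_cancel (hle j)]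
      rw [h1]
      have h2 := hrel (Fin.cons 0 g) (by simp) (by
        rw [Fin.sum_univ_succ]
        simpa using hgs)
      refine Submodule.span_induction (p := fun w _ =>
        (∏ j, z j ^ ((a - Fin.cons 0 g : Fin (m + 1) → ℕ) j)) * w ∈ N) ?_ ?_ ?_ ?_ h2
      · rintro w ⟨b, hb, rfl⟩
        rw [hsplit]
        refine ih (∑ l : Fin m, ((a - Fin.cons 0 g : Fin (m + 1) → ℕ) + b) l.succ) ?_ _ rfl
        have h3 : ∑ l : Fin m, ((a - Fin.cons 0 g : Fin (m + 1) → ℕ) + b) l.succ +
            ∑ l, g l = ∑ l : Fin m, a l.succ + ∑ l : Fin m, b l.succ := by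
          rw [← Finset.sum_add_distrib, ← Finset.sum_add_distrib]
          apply Finset.sum_congr rfl
          intro l _
          simp only [Pi.add_apply, Pi.sub_apply, Fin.cons_succ]
          have := hg l
          omega
        omega
      · simp
      · intro x y _ _ hx hy
        rw [mul_add]
        exact Submodule.add_mem _ hx hy
      · intro r x _ hx
        rw [mul_smul_comm]
        exact Submodule.smul_mem _ _ hx

/-- the reduction relation in algebra -/
theorem reduction {k : Type u} [Field k] {m t : ℕ} {g : Fin m → MvPolynomial (Fin (m + 1)) k}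
    (h : MacHyp k m t g) {A : Type*} [CommRing A] [Algebra k A] (y : Fin (m + 1) → A)
    (hy : ∀ l, MvPolynomial.aeval y (g l) = 0) (a : Fin (m + 1) → ℕ) (ha0 : a 0 = 0)
    (ha : ∑ j, a j = t + 1) :
    ∃ r : MvPolynomial (Fin (m + 1)) k, r.totalDegree ≤ t + 1 ∧
      (∀ b ∈ r.support, ∑ l : Fin m, b l.succ ≤ t) ∧
      ∏ j, y j ^ a j = ∑ b ∈ r.support, algebraMap k A (r.coeff b) * ∏ j, y j ^ b j := by
  obtain ⟨r, hr1, hr2, hr3⟩ := h (Finsupp.equivFunOnFinite.symm a) (by simpa using ha0) (by
    rw [Finsupp.sum_fintype _ _ (fun _ => rfl)]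
    simpa using ha)
  refine ⟨r, hr2, hr3, ?_⟩
  have h1 : MvPolynomial.aeval y (MvPolynomial.monomial (Finsupp.equivFunOnFinite.symm a) 1 - r) =
      0 := by
    have h2 : Ideal.span (Set.range g) ≤ RingHom.ker (MvPolynomial.aeval (R := k) y) := by
      rw [Ideal.span_le]
      rintro _ ⟨l, rfl⟩
      exact hy l
    exact h2 hr1
  rw [map_sub, sub_eq_zero, MvPolynomial.aeval_monomial, map_one, one_mul,
    Finsupp.prod_fintype _ _ (fun _ => pow_zero _)] at h1
  have h3 : MvPolynomial.aeval y r =
      ∑ b ∈ r.support, algebraMap k A (r.coeff b) * ∏ j, y j ^ b j := by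
    rw [MvPolynomial.aeval_def, MvPolynomial.eval₂_eq']
  rw [← h3, ← h1]
  simp

theorem macaulay_int {k : Type u} [Field k] {m t : ℕ} {g : Fin m → MvPolynomial (Fin (m + 1)) k}
    (h : MacHyp k m t g) (A : Type u) [CommRing A] [Algebra k A] (y : Fin (m + 1) → A)
    (hy : ∀ l, MvPolynomial.aeval y (g l) = 0) (j : Fin (m + 1)) :
    HomInt k (fun _ : Unit => y 0) (y j) := by
  classical
  unfold HomInt
  set S := Algebra.adjoin k (insert (X : A[X]) (Set.range fun _ : Unit => C (y 0) * X)) with hS
  let Xs : S := ⟨X, Algebra.subset_adjoin (Set.mem_insert _ _)⟩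
  let ζ : S := ⟨C (y 0) * X, Algebra.subset_adjoin (Set.mem_insert_of_mem _ ⟨(), rfl⟩)⟩
  let z : Fin (m + 1) → A[X] := fun j => C (y j) * X
  have hmain := span_monomials (R := S) m t z ζ rfl (by
    intro a ha0 ha
    obtain ⟨r, hr1, hr2, hr3⟩ := reduction h y hy a ha0 ha
    have hz : ∀ b : Fin (m + 1) → ℕ, ∏ j, z j ^ b j = C (∏ j, y j ^ b j) * X ^ (∑ j, b j) := by
      intro b
      simp only [z, mul_pow, Finset.prod_mul_distrib, map_prod, map_pow,
        Finset.prod_pow_eq_pow_sum]
    have h1 : ∏ j, z j ^ a j = ∑ b ∈ r.support,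
        (algebraMap k S (r.coeff b) * Xs ^ (t + 1 - ∑ j, b j)) • ∏ j, z j ^ b j := by
      rw [hz, ha, hr3, map_sum, Finset.sum_mul]
      apply Finset.sum_congr rfl
      intro b hb
      have h2 : ∑ j, b j ≤ t + 1 := by
        have := MvPolynomial.le_totalDegree hb
        rw [Finsupp.sum_fintype _ _ (fun _ => rfl)] at this
        exact this.trans hr1
      have h4 : algebraMap S A[X] (algebraMap k S (r.coeff b) * Xs ^ (t + 1 - ∑ j, b j)) =
          C (algebraMap k A (r.coeff b)) * X ^ (t + 1 - ∑ j, b j) := rfl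
      rw [hz, Algebra.smul_def, h4, map_mul]
      have h5 : (X : A[X]) ^ (t + 1) = X ^ (t + 1 - ∑ j, b j) * X ^ (∑ j, b j) := by
        rw [← pow_add, Nat.sub_add_cancel h2]
      rw [h5]
      ring
    rw [h1]
    apply Submodule.sum_mem
    intro b hb
    apply Submodule.smul_mem
    apply Submodule.subset_span
    exact ⟨b, hr2 b hb, rfl⟩)
  -- the subalgebra generated by the `z j`
  have hsub : (Subalgebra.toSubmodule (Algebra.adjoin S (Set.range z))) =
      Submodule.span S ((fun b : Fin m → ℕ => ∏ l, z l.succ ^ b l) ''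
        (expSet m t : Set (Fin m → ℕ))) := by
    apply le_antisymm
    · rw [Algebra.adjoin_eq_span, Submodule.span_le]
      intro w hw
      have : ∃ a : Fin (m + 1) → ℕ, w = ∏ j, z j ^ a j := by
        induction hw using Submonoid.closure_induction with
        | mem w hw =>
          obtain ⟨j, rfl⟩ := hw
          refine ⟨Pi.single j 1, ?_⟩
          rw [Finset.prod_eq_single j]
          · simp
          · intro i _ hij
            rw [Pi.single_eq_of_ne hij, pow_zero]
          · intro hj
            exact absurd (Finset.mem_univ _) hj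
        | one => exact ⟨0, by simp⟩
        | mul _ _ _ _ iha ihb =>
          obtain ⟨a, rfl⟩ := iha
          obtain ⟨b, rfl⟩ := ihb
          refine ⟨a + b, ?_⟩
          rw [← Finset.prod_mul_distrib]
          apply Finset.prod_congr rfl
          intro j _
          rw [Pi.add_apply, pow_add]
      obtain ⟨a, rfl⟩ := this
      exact hmain _ a rfl
    · rw [Submodule.span_le]
      rintro _ ⟨b, _, rfl⟩
      apply Subalgebra.prod_mem
      intro l _
      exact Subalgebra.pow_mem _ (Algebra.subset_adjoin (Set.mem_range_self l.succ)) _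
  refine IsIntegral.of_mem_of_fg (Algebra.adjoin S (Set.range z)) ?_ (z j)
    (Algebra.subset_adjoin ⟨j, rfl⟩)
  rw [hsub]
  exact Submodule.fg_span ((Finset.finite_toSet _).image _)

theorem macaulay_card {k : Type u} [Field k] {m t : ℕ} {g : Fin m → MvPolynomial (Fin (m + 1)) k}
    (h : MacHyp k m t g) (Ω : Type u) [Field Ω] [Algebra k Ω] (η₀ : Ω) :
    {η : Fin (m + 1) → Ω | η 0 = η₀ ∧ ∀ l, MvPolynomial.aeval η (g l) = 0}.encard ≤
      ((t + m).choose m : ℕ) := by
  classical
  by_contra hcon
  push Not at hcon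
  obtain ⟨s', hs's, hs'⟩ := Set.exists_subset_encard_eq (Order.add_one_le_of_lt hcon)
  have hfin : s'.Finite := by
    rw [← Set.encard_ne_top_iff, hs']
    exact_mod_cast ENat.natCast_ne_top ((t + m).choose m + 1)
  obtain ⟨s, rfl⟩ := hfin.exists_finset_coe
  have hcard : s.card = (t + m).choose m + 1 := by
    rw [Set.encard_coe_eq_coe_finsetCard] at hs'
    exact_mod_cast hs'
  let z : Fin (m + 1) → (s → Ω) := fun j η => η.1 j
  have hmain := span_monomials (R := Ω) (W := s → Ω) m t z η₀ (by
    ext η
    exact (hs's η.2).1) (by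
    intro a ha0 ha
    have hz : ∀ l, MvPolynomial.aeval (R := k) z (g l) = 0 := by
      intro l
      ext η
      have h1 : (Pi.evalAlgHom k (fun _ : s => Ω) η) (MvPolynomial.aeval (R := k) z (g l)) =
          MvPolynomial.aeval (fun j => z j η) (g l) := by
        rw [MvPolynomial.comp_aeval_apply]
        rfl
      have h2 : (Pi.evalAlgHom k (fun _ : s => Ω) η) (MvPolynomial.aeval (R := k) z (g l)) =
        (MvPolynomial.aeval (R := k) z (g l)) η := rfl
      rw [← h2, h1]
      exact (hs's η.2).2 l
    obtain ⟨r, hr1, hr2, hr3⟩ := reduction h z hz a ha0 ha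
    rw [hr3]
    apply Submodule.sum_mem
    intro b hb
    have h1 : algebraMap k (s → Ω) (r.coeff b) * ∏ j, z j ^ b j =
        (algebraMap k Ω (r.coeff b)) • ∏ j, z j ^ b j := by
      rw [Algebra.smul_def]
      rfl
    rw [h1]
    apply Submodule.smul_mem
    apply Submodule.subset_span
    exact ⟨b, hr2 b hb, rfl⟩)
  set N := Submodule.span Ω ((fun b : Fin m → ℕ => ∏ l, z l.succ ^ b l) ''
        (expSet m t : Set (Fin m → ℕ))) with hN
  have hNlt : N < ⊤ := by
    rw [lt_top_iff_ne_top]
    intro htop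
    have h1 : Module.finrank Ω N = s.card := by
      rw [htop, finrank_top, Module.finrank_fintype_fun_eq_card, Fintype.card_coe]
    have h2 : Module.finrank Ω N ≤ (t + m).choose m := by
      rw [hN, ← Finset.coe_image]
      refine (finrank_span_finset_le_card _).trans ?_
      exact Finset.card_image_le.trans (card_expSet m t)
    omega
  obtain ⟨f, hf0, hf⟩ := Submodule.exists_le_ker_of_lt_top N hNlt
  -- the functional
  have hlin := linearIndependent_monoidHom (MvPolynomial (Fin (m + 1)) Ω) Ω
  let E : s → (MvPolynomial (Fin (m + 1)) Ω →* Ω) := fun η =>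
    ((MvPolynomial.aeval (R := Ω) η.1 : MvPolynomial (Fin (m + 1)) Ω →ₐ[Ω] Ω) :
      MvPolynomial (Fin (m + 1)) Ω →* Ω)
  have hE : Function.Injective E := by
    intro η η' hηη'
    apply Subtype.ext
    funext j
    have := DFunLike.congr_fun hηη' (MvPolynomial.X j)
    simpa [E] using this
  have hlin2 := hlin.comp E hE
  rw [Fintype.linearIndependent_iff] at hlin2
  have hz0 : ∀ p : MvPolynomial (Fin (m + 1)) Ω,
      f (fun η : s => MvPolynomial.aeval (R := Ω) η.1 p) = 0 := by
    intro p
    induction p using MvPolynomial.induction_on' with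
    | monomial u a =>
      have h1 : (fun η : s => MvPolynomial.aeval (R := Ω) η.1 (MvPolynomial.monomial u a)) =
          a • ∏ j, z j ^ u j := by
        funext η
        rw [MvPolynomial.aeval_monomial, Finsupp.prod_fintype _ _ (fun _ => pow_zero _)]
        simp [z, Finset.prod_apply]
      rw [h1, map_smul]
      have h2 : f (∏ j, z j ^ u j) = 0 := hf (hmain _ u rfl)
      rw [h2, smul_zero]
    | add p q hp hq =>
      have h1 : (fun η : s => MvPolynomial.aeval (R := Ω) η.1 (p + q)) =
          (fun η : s => MvPolynomial.aeval (R := Ω) η.1 p) +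
          (fun η : s => MvPolynomial.aeval (R := Ω) η.1 q) := by
        funext η
        simp
      rw [h1, map_add, hp, hq, add_zero]
  have hrep : ∀ w : s → Ω, f w = ∑ η, w η * f (Pi.single η 1) := by
    intro w
    conv_lhs => rw [pi_eq_sum_univ' w]
    rw [map_sum]
    apply Finset.sum_congr rfl
    intro η _
    rw [map_smul, smul_eq_mul]
  have hzero := hlin2 (fun η => f (Pi.single η 1)) (by
    funext p
    have := hz0 p
    rw [hrep] at this
    rw [Finset.sum_apply]
    refine Eq.trans ?_ this
    apply Finset.sum_congr rfl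
    intro η _
    simp [E, mul_comm])
  apply hf0
  ext w
  simpa using hzero w

theorem macaulay : MacaulayStmt.{u} := by
  intro k _ m t g h
  exact ⟨fun A _ _ y hy j => macaulay_int h A y hy j, fun Ω _ _ η₀ => macaulay_card h Ω η₀⟩

end PGL.H12
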